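import Pool.Agent.H446R2.CycleThree

set_option autoImplicit false

/-!
Cycles of the maps `T_{a,b}` (in particular of the `3x+1` and of the `5x+1` map) on the integers:
only `O((1/ε) log (P/ε))` cycles of length at most `P` have a length outside of the Bohr set of the
`p` for which `p log 2 / log a` is within `ε` of an integer.
-/

namespace Pool.Agent.Results.MP_dee342_nt.CycleCount

open Finset Filter Topology

/-- the map `T_{a,b}` on the integers -/
def T (a b x : ℤ) : ℤ := if x % 2 = 0 then x / 2 else (a * x + b) / 2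

/-- the periodic orbits (cycles) of a map on the integers, as finite sets:
`{x, f x, ..., f^(p-1) x}` with `p ≥ 1` and `f^p x = x` -/
def IsCycle (f : ℤ → ℤ) (c : Finset ℤ) : Prop :=
  ∃ x : ℤ, ∃ p : ℕ, 1 ≤ p ∧ f^[p] x = x ∧ c = (range p).image (fun j => f^[j] x)

/-- the exponent of `a` in one step -/
def ex (x : ℤ) : ℕ := if x % 2 = 1 then 1 else 0

theorem model (a b : ℤ) (ha : a % 2 = 1) (ha3 : 3 ≤ a) (hb : b % 2 = 1) :
    Pool.Agent.H446R2.CS.Model (T a b) 2 a.toNat ex |(b : ℝ)| where
  hd := by norm_num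
  hβ := by omega
  bd := by
    intro x
    have hta : ((a.toNat : ℕ) : ℤ) = a := Int.toNat_of_nonneg (by omega)
    rw [hta]
    rcases Int.emod_two_eq_zero_or_one x with h | h
    · have h1 : (2 : ℤ) * T a b x = x := by
        unfold T
        rw [if_pos h]
        omega
      have h2 : ex x = 0 := by
        unfold ex
        rw [if_neg (by omega)]
      rw [h2, pow_zero, one_mul]
      have h3 : (((2 : ℕ) : ℤ) * T a b x) = x := by exact_mod_cast h1
      rw [h3, sub_self, abs_zero]
      exact abs_nonneg _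
    · have h1 : (2 : ℤ) * T a b x = a * x + b := by
        unfold T
        rw [if_neg (by omega)]
        have h4 : (a * x + b) % 2 = 0 := by
          rw [Int.add_emod, Int.mul_emod, ha, h, hb]
          norm_num
        omega
      have h2 : ex x = 1 := by
        unfold ex
        rw [if_pos h]
      rw [h2, pow_one]
      have h3 : (((2 : ℕ) : ℤ) * T a b x) = a * x + b := by exact_mod_cast h1
      rw [h3]
      push_cast
      rw [add_sub_cancel_left]

/-- Let `a ≥ 3` and `b` be odd.  At most `(C/ε) (1 + log P + log(1/ε))` cycles of `T_{a,b}` have length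
at most `P` and a length `p` such that `p log 2 / log a` is at distance at least `ε` from the
integers (the cycle `{0}` is left out). -/
theorem result (a b : ℤ) (ha : a % 2 = 1) (ha3 : 3 ≤ a) (hb : b % 2 = 1) :
    ∃ C : ℝ, ∀ (P : ℕ) (ε : ℝ), 1 ≤ P → 0 < ε → ε ≤ 1 →
      ∀ F : Finset (Finset ℤ), (∀ c ∈ F, IsCycle (T a b) c ∧ (0 : ℤ) ∉ c ∧ c.card ≤ P ∧
        ∀ k : ℤ, ε ≤ |(c.card : ℝ) * (Real.log 2 / Real.log a) - k|) →
      (F.card : ℝ) ≤ C / ε * (1 + Real.log P + Real.log (1 / ε)) := by
  have M := model a b ha ha3 hb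
  have hta : ((a.toNat : ℕ) : ℤ) = a := Int.toNat_of_nonneg (by omega)
  have htr : ((a.toNat : ℕ) : ℝ) = (a : ℝ) := by exact_mod_cast congrArg (Int.cast : ℤ → ℝ) hta
  have h2r : ((2 : ℕ) : ℝ) = 2 := by norm_num
  obtain ⟨C, _, hC⟩ := M.count
  refine ⟨C, ?_⟩
  intro P ε hP hε hε1 F hF
  apply hC P ε hP hε hε1 F
  intro c hc
  rw [htr, h2r]
  exact hF c hc

end Pool.Agent.Results.MP_dee342_nt.CycleCount
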