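import Pool.Agent.H446R2.CycleThree

set_option autoImplicit false

/-!
Almost no positive integer is the length of a cycle of the map `T_{a,b}` on the integers, in
particular of the `3x+1` and of the `5x+1` map.
-/

namespace Pool.Agent.Results.MP_dee342_nt.CycleLengths

open Finset Filter Topology

/-- the map `T_{a,b}` on the integers -/
def T (a b x : ℤ) : ℤ := if x % 2 = 0 then x / 2 else (a * x + b) / 2

/-- the periodic orbits (cycles) of a map on the integers, as finite sets:
`{x, f x, ..., f^(p-1) x}` with `p ≥ 1` and `f^p x = x` -/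
def IsCycle (f : ℤ → ℤ) (c : Finset ℤ) : Prop :=
  ∃ x : ℤ, ∃ p : ℕ, 1 ≤ p ∧ f^[p] x = x ∧ c = (range p).image (fun j => f^[j] x)

/-- the numbers `p ≤ P` for which some cycle has exactly `p` elements -/
def lengths (f : ℤ → ℤ) (P : ℕ) : Set ℕ := {p | p ≤ P ∧ ∃ c, IsCycle f c ∧ c.card = p}

/-- the exponent of `a` in one step -/
def ex (x : ℤ) : ℕ := if x % 2 = 1 then 1 else 0

theorem model (a b : ℤ) (ha : a % 2 = 1) (ha3 : 3 ≤ a) (hb : b % 2 = 1) :
    Pool.Agent.H446R2.CS.Model (T a b) 2 a.toNat ex |(b : ℝ)| where
  hd := by norm_num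
  hβ := by omega
  bd := by
    intro x
    have hta : ((a.toNat : ℕ) : ℤ) = a := Int.toNat_of_nonneg (by omega)
    rw [hta]
    rcases Int.emod_two_eq_zero_or_one x with h | h
    · have h1 : (2 : ℤ) * T a b x = x := by
        unfold T
        rw [if_pos h]
        omega
      have h2 : ex x = 0 := by
        unfold ex
        rw [if_neg (by omega)]
      rw [h2, pow_zero, one_mul]
      have h3 : (((2 : ℕ) : ℤ) * T a b x) = x := by exact_mod_cast h1
      rw [h3, sub_self, abs_zero]
      exact abs_nonneg _
    · have h1 : (2 : ℤ) * T a b x = a * x + b := by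
        unfold T
        rw [if_neg (by omega)]
        have h4 : (a * x + b) % 2 = 0 := by
          rw [Int.add_emod, Int.mul_emod, ha, h, hb]
          norm_num
        omega
      have h2 : ex x = 1 := by
        unfold ex
        rw [if_pos h]
      rw [h2, pow_one]
      have h3 : (((2 : ℕ) : ℤ) * T a b x) = a * x + b := by exact_mod_cast h1
      rw [h3]
      push_cast
      rw [add_sub_cancel_left]

/-- For all odd `a ≥ 3` and all odd `b` (in particular for `T_3 = T_{3,1}` and `T_5 = T_{5,1}`) the set
of the lengths of the cycles of `T_{a,b}` on the integers has natural density zero. -/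
theorem result (a b : ℤ) (ha : a % 2 = 1) (ha3 : 3 ≤ a) (hb : b % 2 = 1) :
    Tendsto (fun P : ℕ => ((lengths (T a b) P).ncard : ℝ) / P) atTop (𝓝 0) := by
  have M := model a b ha ha3 hb
  have hirr := Pool.Agent.H446R2.CS.irrational_log_div a.toNat
    (by rw [Nat.odd_iff]; omega) (by omega)
  exact M.density hirr

end Pool.Agent.Results.MP_dee342_nt.CycleLengths
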