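import Mathlib
import Pool.Agent.H499R2.CO.S3

set_option autoImplicit false

namespace Pool.Agent.Results.MP_dee342_nt.SufficientSets

open Filter

/-- The `3x+1` map on the integers. -/
def T (x : ℤ) : ℤ := if x % 2 = 0 then x / 2 else (3 * x + 1) / 2

/-- `x` lies on a cycle. -/
def Periodic (x : ℤ) : Prop := ∃ p : ℕ, 1 ≤ p ∧ T^[p] x = x

/-- The number of elements of `S` among `x + 1, ..., x + H`. -/
noncomputable def count (S : Set ℤ) (x : ℤ) (H : ℕ) : ℕ := {h : ℕ | 1 ≤ h ∧ h ≤ H ∧ x + h ∈ S}.ncard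

/-- For every `ε > 0` there is `c > 0` such that for every `θ > 0` and for infinitely many `N`, with
`H = ⌊N ^ θ⌋`: for all but at most `ε N` of the `1 ≤ n ≤ N` at least `c H` of the integers
`s n + 1, ..., s n + H` belong to `S`. -/
def Spread (s : ℤ) (S : Set ℤ) : Prop :=
  ∀ ε : ℝ, 0 < ε → ∃ c : ℝ, 0 < c ∧ ∀ θ : ℝ, 0 < θ → ∃ᶠ N : ℕ in atTop,
    ({n : ℕ | 1 ≤ n ∧ n ≤ N ∧ (count S (s * n) ⌊(N : ℝ) ^ θ⌋₊ : ℝ) < c * ⌊(N : ℝ) ^ θ⌋₊}.ncard : ℝ)
      ≤ ε * N

/-- Let `S` be a set of integers which is not too sparse in most short intervals, on the positive and on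
the negative side (for instance a set with bounded gaps).  If the trajectories under the `3x+1` map
starting at the elements of `S` enter only finitely many cycles, then the `3x+1` map has only finitely
many cycles on the integers. -/
theorem result (S : Set ℤ) (h1 : Spread 1 S) (h2 : Spread (-1) S)
    (hfin : {y : ℤ | Periodic y ∧ ∃ x ∈ S, ∃ k : ℕ, T^[k] x = y}.Finite) :
    {y : ℤ | Periodic y}.Finite := by
  set A : Set ℤ := {y : ℤ | Periodic y ∧ ∃ x ∈ S, ∃ k : ℕ, T^[k] x = y} with hA
  set R : Set ℤ := {x : ℤ | ∀ k : ℕ, Periodic (T^[k] x) → T^[k] x ∈ A} with hR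
  have hinv : ∀ x, x ∈ R ↔ T x ∈ R := by
    intro x
    constructor
    · intro h k hk
      rw [← Function.iterate_succ_apply] at hk ⊢
      exact h (k + 1) hk
    · intro h k hk
      rcases k with _ | k
      · obtain ⟨p, hp, hx⟩ := hk
        rw [Function.iterate_zero, id] at hx
        obtain ⟨q, rfl⟩ : ∃ q, p = q + 1 := ⟨p - 1, by omega⟩
        have e : T^[q] (T x) = x := by rw [← Function.iterate_succ_apply]; exact hx
        have := h q (by rw [e]; exact ⟨q + 1, hp, hx⟩)
        rw [e] at this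
        simpa using this
      · rw [Function.iterate_succ_apply] at hk ⊢
        exact h k hk
  have hSR : ∀ x ∈ S, x ∈ R := fun x hx k hk => ⟨hk, x, hx, k, rfl⟩
  have p1 := Pool.Agent.H499R2.CO.spread_inv (s := 1) (Or.inl rfl) (R := R) hinv S h1 (fun x hx _ => hSR x hx)
  have p2 := Pool.Agent.H499R2.CO.spread_inv (s := -1) (Or.inr rfl) (R := R) hinv S h2 (fun x hx _ => hSR x hx)
  refine (hfin.union (Set.finite_singleton 0)).subset ?_
  intro y hy
  rcases lt_trichotomy y 0 with h | h | h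
  · left
    exact p2 y (by omega) 0 hy
  · right; exact h
  · left
    exact p1 y (by omega) 0 hy

end Pool.Agent.Results.MP_dee342_nt.SufficientSets
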